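import Pool.Agent.Helper62.FO.Alg

/-!
# Order of flat outputs: Lemma A
-/

set_option autoImplicit false

namespace FlatOrder

variable {F : Type*} [Field F] [CharZero F]

/-- Laurent polynomial identity over the constants of `∂`. -/
theorem laurent_coeff_zero (del : Derivation ℤ F F) {τ : F} (hτ : del τ ≠ 0) {ι : Type*} (S : Finset ι)
    (e : ι → ℤ) (a : ι → F) (ha : ∀ i ∈ S, del (a i) = 0) (hsum : ∑ i ∈ S, a i * τ ^ (e i) = 0)
    (i₀ : ι) (hi₀ : i₀ ∈ S) (hne : ∀ i ∈ S, i ≠ i₀ → e i ≠ e i₀) : a i₀ = 0 := by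
  classical
  have hτ0 : τ ≠ 0 := by
    rintro rfl
    exact hτ (map_zero del)
  generalize hn : S.card = n
  induction n generalizing S e a with
  | zero =>
    rw [Finset.card_eq_zero] at hn
    rw [hn] at hi₀
    exact absurd hi₀ (Finset.notMem_empty _)
  | succ n ih =>
    by_cases hex : ∃ i₁ ∈ S, i₁ ≠ i₀
    · obtain ⟨i₁, hi₁, hne₁⟩ := hex
      have h1 : ∑ i ∈ S, a i * τ ^ (e i - e i₁) = 0 := by
        have : ∑ i ∈ S, a i * τ ^ (e i - e i₁) = (∑ i ∈ S, a i * τ ^ (e i)) * τ ^ (-e i₁) := by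
          rw [Finset.sum_mul]
          refine Finset.sum_congr rfl fun i _ => ?_
          rw [mul_assoc, ← zpow_add₀ hτ0, sub_eq_add_neg]
        rw [this, hsum, zero_mul]
      have h2 : ∑ i ∈ S, (a i * ((e i - e i₁ : ℤ) : F)) * τ ^ (e i - e i₁ - 1) = 0 := by
        have h3 : del (∑ i ∈ S, a i * τ ^ (e i - e i₁)) = 0 := by rw [h1, map_zero]
        have h4 : del (∑ i ∈ S, a i * τ ^ (e i - e i₁)) =
            (∑ i ∈ S, (a i * ((e i - e i₁ : ℤ) : F)) * τ ^ (e i - e i₁ - 1)) * del τ := by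
          rw [map_sum, Finset.sum_mul]
          refine Finset.sum_congr rfl fun i hi => ?_
          rw [Derivation.leibniz, ha i hi, smul_zero, add_zero, Derivation.leibniz_zpow]
          simp only [smul_eq_mul, zsmul_eq_mul]
          ring
        rw [h4] at h3
        exact (mul_eq_zero.1 h3).resolve_right hτ
      have h5 : ∑ i ∈ S.erase i₁, (a i * ((e i - e i₁ : ℤ) : F)) * τ ^ (e i - e i₁ - 1) = 0 := by
        rw [← Finset.add_sum_erase S _ hi₁] at h2
        simpa using h2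
      have h6 := ih (S.erase i₁) (fun i => e i - e i₁ - 1) (fun i => a i * ((e i - e i₁ : ℤ) : F))
        (by
          intro i hi
          have := ha i (Finset.mem_of_mem_erase hi)
          rw [Derivation.leibniz, this, smul_zero, add_zero]
          have h7 : del (((e i - e i₁ : ℤ) : F)) = 0 := by
            simp
          rw [h7, smul_zero]) h5 (Finset.mem_erase.2 ⟨hne₁.symm, hi₀⟩) (by
          intro i hi hii
          have := hne i (Finset.mem_of_mem_erase hi) hii
          omega) (by rw [Finset.card_erase_of_mem hi₁, hn]; rfl)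
      have h8 : ((e i₀ - e i₁ : ℤ) : F) ≠ 0 := by
        rw [Ne, Int.cast_eq_zero]
        have := hne i₁ hi₁ hne₁
        omega
      exact (mul_eq_zero.1 h6).resolve_right h8
    · push Not at hex
      have hS : S = {i₀} := by
        ext i
        rw [Finset.mem_singleton]
        exact ⟨fun h => hex i h, fun h => h ▸ hi₀⟩
      rw [hS, Finset.sum_singleton] at hsum
      exact (mul_eq_zero.1 hsum).resolve_right (zpow_ne_zero _ hτ0)

omit [CharZero F] in
/-- decomposition of the total derivative of an element killed by `δ (s + 1)` -/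
theorem D_decomp (J : JetDer F) {s : ℕ} {q n : F} (hn : J.δ (s + 1) q = n) (hn0 : n ≠ 0)
    (hnn : J.δ (s + 1) n = 0) {x : F} (hx : J.δ (s + 1) x = 0) :
    ∃ x0 x1 : F, J.D x = x0 + x1 * q ∧ J.δ (s + 1) x0 = 0 ∧ J.δ (s + 1) x1 = 0 := by
  have h1 : J.δ (s + 1) (J.D x) = J.δ s x := by
    rw [J.δ_D_succ, hx, map_zero, zero_add]
  have h2 : J.δ (s + 1) (J.δ s x) = 0 := by
    rw [J.δ_comm, hx, map_zero]
  have h3 : J.δ (s + 1) (J.δ s x / n) = 0 := by
    rw [Derivation.leibniz_div_const _ _ _ hnn, h2, smul_zero]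
  refine ⟨J.D x - J.δ s x / n * q, J.δ s x / n, by ring, ?_, h3⟩
  rw [map_sub, h1, Derivation.leibniz, h3, hn, smul_zero, add_zero, smul_eq_mul,
    div_mul_cancel₀ _ hn0, sub_self]

/-- Lemma A. -/
theorem lemmaA (J : JetDer F) {c : ℤ} (hc : c ≠ -1 ∧ c ≠ 0 ∧ c ≠ 1) {s : ℕ} {z k l v : F} {p : ℕ → F}
    (hv : v = l + k * J.D z) (hE : J.D l = l ^ 2 - c * J.D z * J.D k)
    (hp0 : J.δ 0 v = J.D (p 0)) (hp : ∀ j, J.δ (j + 1) v = J.D (p (j + 1)) + p j)
    (hsym : ∀ i j, J.δ i (p j) = J.δ j (p i))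
    (hps : ∀ j, s ≤ j → p j = 0) (hz : ∀ j, s ≤ j → J.δ j z = 0)
    (hk : ∀ j, s < j → J.δ j k = 0) (hl : ∀ j, s < j → J.δ j l = 0) (hq : J.D z ≠ 0) :
    J.δ s (J.D z) * J.δ s k = 0 := by
  by_contra hne
  obtain ⟨hn0, hw0⟩ := mul_ne_zero_iff.1 hne
  obtain ⟨hc1, hc2, hc3⟩ := hc
  -- `s ≥ 1`
  rcases s with _ | s
  · apply hn0
    rw [J.δ_D_zero, hz 0 le_rfl, map_zero]
  set q := J.D z with hqdef
  set w := J.δ (s + 1) k with hw
  set n := J.δ (s + 1) q with hn
  have hn' : n = J.δ s z := by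
    rw [hn, hqdef, J.δ_D_succ, hz (s + 1) le_rfl, map_zero, zero_add]
  have hdn : J.δ (s + 1) n = 0 := by
    rw [hn', J.δ_comm, hz (s + 1) le_rfl, map_zero]
  have hcast : ∀ (m : ℤ) j, J.δ j (m : F) = 0 := by
    intro m j
    simp
  -- `δ_s l`
  have hdl : J.δ (s + 1) l = -c * q * w := by
    have h1 : J.δ (s + 2) (J.D l) = J.δ (s + 1) l := by
      rw [J.δ_D_succ, hl (s + 2) (by omega), map_zero, zero_add]
    have h2 : J.δ (s + 2) (J.D k) = w := by
      rw [J.δ_D_succ, hk (s + 2) (by omega), map_zero, zero_add]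
    have h3 : J.δ (s + 2) q = 0 := by
      rw [hqdef, J.δ_D_succ, hz (s + 2) (by omega), map_zero, zero_add, hz (s + 1) le_rfl]
    rw [← h1, hE, map_sub, Derivation.leibniz_pow, Derivation.leibniz, Derivation.leibniz,
      h2, h3, hcast, hl (s + 2) (by omega)]
    simp
  have hdv : J.δ (s + 1) v = (1 - c) * q * w + k * n := by
    rw [hv, map_add, hdl, Derivation.leibniz]
    simp only [smul_eq_mul]
    rw [← hw, ← hn]
    ring
  have hdv' : J.δ (s + 1) v = p s := by
    rw [hp, hps (s + 1) le_rfl, map_zero, zero_add]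
  have hdps : J.δ (s + 1) (p s) = 0 := by
    rw [hsym, hps (s + 1) le_rfl, map_zero]
  have hdw : (1 - c) * q * J.δ (s + 1) w = -(2 - c) * n * w := by
    have h1 : J.δ (s + 1) ((1 - c) * q * w + k * n) = 0 := by
      rw [← hdv, hdv', hdps]
    have h2 : J.δ (s + 1) ((1 - c) * q * w + k * n) =
        (1 - c) * (n * w + q * J.δ (s + 1) w) + w * n := by
      have h3 : J.δ (s + 1) ((1 : F) - c) = 0 := by
        have := hcast (1 - c) (s + 1)
        push_cast at this
        exact this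
      rw [map_add, Derivation.leibniz, Derivation.leibniz, Derivation.leibniz, h3, hdn]
      simp only [smul_eq_mul]
      rw [← hw, ← hn]
      ring
    rw [h2] at h1
    linear_combination h1
  have hc3' : (1 - c : F) ≠ 0 := by
    have : ((1 - c : ℤ) : F) ≠ 0 := by
      rw [Ne, Int.cast_eq_zero]
      omega
    push_cast at this
    exact this
  -- the new variables
  set τ := (1 - c) * q * w / n with hτ
  have hτ0 : τ ≠ 0 := div_ne_zero (mul_ne_zero (mul_ne_zero hc3' hq) hw0) hn0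
  have hdτ : J.δ (s + 1) τ = -w := by
    rw [hτ, Derivation.leibniz_div_const _ _ _ hdn]
    have h2 : J.δ (s + 1) ((1 - c) * q * w) = (1 - c) * (n * w + q * J.δ (s + 1) w) := by
      have h3 : J.δ (s + 1) ((1 : F) - c) = 0 := by
        have := hcast (1 - c) (s + 1)
        push_cast at this
        exact this
      rw [Derivation.leibniz, Derivation.leibniz, h3]
      simp only [smul_eq_mul]
      rw [← hn]
      ring
    rw [h2, smul_eq_mul, mul_add, ← mul_assoc (1 - (c : F)) q, hdw]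
    field_simp
    ring
  have hdτ0 : J.δ (s + 1) τ ≠ 0 := by
    rw [hdτ]
    exact neg_ne_zero.2 hw0
  have hnτ : n * τ = (1 - c) * q * w := by
    rw [hτ]
    field_simp
  obtain ⟨K, hK⟩ : ∃ K, K = k + τ := ⟨_, rfl⟩
  obtain ⟨L, hL⟩ : ∃ L, L = l - τ * q := ⟨_, rfl⟩
  obtain ⟨E, hEd⟩ : ∃ E, E = q * τ ^ (1 - c) := ⟨_, rfl⟩
  have hdK : J.δ (s + 1) K = 0 := by
    rw [hK, map_add, hdτ, ← hw]
    ring
  have hdL : J.δ (s + 1) L = 0 := by
    rw [hL, map_sub, hdl, Derivation.leibniz, hdτ, ← hn]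
    simp only [smul_eq_mul]
    linear_combination -hnτ
  have hdE : J.δ (s + 1) E = 0 := by
    rw [hEd, Derivation.leibniz, Derivation.leibniz_zpow, hdτ, ← hn]
    simp only [smul_eq_mul, zsmul_eq_mul]
    have h1 : τ ^ (1 - c) = τ ^ (1 - c - 1) * τ := by
      rw [← zpow_add_one₀ hτ0]
      congr 1
      ring
    rw [h1]
    push_cast
    linear_combination (τ ^ (1 - c - 1)) * hnτ
  have hqE : q = E * τ ^ (c - 1) := by
    rw [hEd, mul_assoc, ← zpow_add₀ hτ0]
    have : 1 - c + (c - 1) = 0 := by ring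
    rw [this, zpow_zero, mul_one]
  have hE0 : E ≠ 0 := by
    rintro h
    rw [h, zero_mul] at hqE
    exact hq hqE
  -- the equation in the new variables
  have hDq : J.D q = J.D E * τ ^ (c - 1) + (c - 1) * E * τ ^ (c - 2) * J.D τ := by
    conv_lhs => rw [hqE]
    rw [Derivation.leibniz, Derivation.leibniz_zpow]
    simp only [smul_eq_mul, zsmul_eq_mul]
    have : c - 1 - 1 = c - 2 := by ring
    rw [this]
    push_cast
    ring
  have e1 : τ ^ c = τ ^ (c - 1) * τ := by
    rw [← zpow_add_one₀ hτ0]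
    congr 1
    ring
  have e2 : τ ^ (c - 1) = τ ^ (c - 2) * τ := by
    rw [← zpow_add_one₀ hτ0]
    congr 1
    ring
  have hτDq : τ * J.D q = J.D E * τ ^ c + (c - 1) * q * J.D τ := by
    rw [hDq, e1, hqE, e2]
    ring
  have hmain : J.D L + c * q * J.D K + τ ^ c * J.D E = (L + q * τ) ^ 2 := by
    have h1 : J.D L = J.D l - (τ * J.D q + q * J.D τ) := by
      rw [hL, map_sub, Derivation.leibniz]
      simp only [smul_eq_mul]
    have h2 : J.D K = J.D k + J.D τ := by
      rw [hK, map_add]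
    rw [h1, h2, hE, hL, hτDq]
    ring
  obtain ⟨L0, L1, hL01, hdL0, hdL1⟩ := D_decomp J hn.symm hn0 hdn hdL
  obtain ⟨K0, K1, hK01, hdK0, hdK1⟩ := D_decomp J hn.symm hn0 hdn hdK
  obtain ⟨E0, E1, hE01, hdE0, hdE1⟩ := D_decomp J hn.symm hn0 hdn hdE
  rw [hL01, hK01, hE01] at hmain
  have f1 : (τ ^ (c - 1)) ^ 2 = τ ^ (2 * c - 2) := by
    rw [← zpow_natCast, ← zpow_mul]
    congr 1
    push_cast
    ring
  have f2 : τ ^ c * τ ^ (c - 1) = τ ^ (2 * c - 1) := by
    rw [← zpow_add₀ hτ0]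
    congr 1
    ring
  have f3 : (τ ^ c) ^ 2 = τ ^ (2 * c) := by
    rw [← zpow_natCast, ← zpow_mul]
    congr 1
    push_cast
    ring
  have hqτ : q * τ = E * τ ^ c := by
    rw [e1, hqE]
    ring
  have hfin : (L0 - L ^ 2) * τ ^ (0 : ℤ) + (L1 * E + c * E * K0) * τ ^ (c - 1)
      + (c * K1 * E ^ 2) * τ ^ (2 * c - 2) + (E0 - 2 * L * E) * τ ^ c
      + (E1 * E) * τ ^ (2 * c - 1) + (-E ^ 2) * τ ^ (2 * c) = 0 := by
    rw [hqτ] at hmain
    rw [← f1, ← f2, ← f3, zpow_zero]
    rw [hqE] at hmain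
    linear_combination hmain
  have hconst : ∀ x y : F, J.δ (s + 1) x = 0 → J.δ (s + 1) y = 0 → J.δ (s + 1) (x * y) = 0 := by
    intro x y hx hy
    rw [Derivation.leibniz, hx, hy, smul_zero, smul_zero, add_zero]
  have h2' : J.δ (s + 1) (2 : F) = 0 := by
    have := hcast 2 (s + 1)
    push_cast at this
    exact this
  have hcc := hcast c (s + 1)
  have hsq : ∀ x : F, J.δ (s + 1) x = 0 → J.δ (s + 1) (x ^ 2) = 0 := by
    intro x hx
    rw [pow_two]
    exact hconst x x hx hx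
  have := laurent_coeff_zero (J.δ (s + 1)) hdτ0 (Finset.univ : Finset (Fin 6))
    ![0, c - 1, 2 * c - 2, c, 2 * c - 1, 2 * c]
    ![L0 - L ^ 2, L1 * E + c * E * K0, c * K1 * E ^ 2, E0 - 2 * L * E, E1 * E, -E ^ 2]
    (by
      intro i _
      fin_cases i
      · simp [map_sub, hdL0, hsq L hdL]
      · simp [map_add, hconst _ _ hdL1 hdE, hconst _ _ (hconst _ _ hcc hdE) hdK0]
      · simp [hconst _ _ (hconst _ _ hcc hdK1) (hsq E hdE)]
      · simp [map_sub, hdE0, hconst _ _ (hconst _ _ h2' hdL) hdE]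
      · simp [hconst _ _ hdE1 hdE]
      · simp [hsq E hdE])
    (by
      simp only [Fin.sum_univ_succ, Matrix.cons_val_zero, Matrix.cons_val_succ]
      simp
      rw [zpow_zero] at hfin
      linear_combination hfin)
    5 (Finset.mem_univ _) (by
      intro i _ hi
      fin_cases i <;> simp at hi ⊢ <;> omega)
  simp at this
  exact hE0 this

end FlatOrder
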